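import Pool.Agent.Helper16.KS.Defs
import Pool.Agent.Helper18.KP.Final
import Pool.Agent.Helper14.KSP.Power

/-!
# Project KS: `PowC (1/100) (1/1000)` from `pow_half`
-/

set_option autoImplicit false

namespace Pool.Agent.Helper48.KS

open Finset
open Pool.Agent.Helper16.KS (PowC rad)

theorem rad_cast (k : ℕ) : ((rad k : ℕ) : ℝ) = ∏ p ∈ k.primeFactors, (p : ℝ) := by
  unfold rad; push_cast; rfl

theorem rad_pos' (k : ℕ) : 0 < rad k :=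
  Finset.prod_pos fun _ hp => (Nat.prime_of_mem_primeFactors hp).pos

theorem rad_dvd' (k : ℕ) : rad k ∣ k := Nat.prod_primeFactors_dvd k

theorem rad_dvd_rad {a b : ℕ} (h : a ∣ b) (hb : b ≠ 0) : rad a ∣ rad b :=
  Finset.prod_dvd_prod_of_subset _ _ _ (Nat.primeFactors_mono h hb)

theorem radG_empty (k : ℕ) : Pool.Agent.Helper14.KSP.radG ∅ k = rad k := by
  unfold Pool.Agent.Helper14.KSP.radG rad
  rw [Finset.sdiff_empty]

theorem sum_half_rad : ∃ C : ℝ, 0 < C ∧ ∀ N : ℕ,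
    ∑ z ∈ Icc 1 N, (z : ℝ) ^ (-(1 / 2 : ℝ)) / (rad z : ℝ) ≤ C := by
  obtain ⟨C, hC, h⟩ := Pool.Agent.Helper14.KSP.sum_inv_radG_le (1 / 4) 1 (by norm_num) (by norm_num)
  set r : ℝ := (2 : ℝ) ^ (-(1 / 4 : ℝ)) with hr
  have hr0 : 0 < r := by positivity
  have hr1 : r < 1 := Real.rpow_lt_one_of_one_lt_of_neg (by norm_num) (by norm_num)
  refine ⟨C * 2 ^ (1 / 4 : ℝ) * (1 - r)⁻¹, by
    have : 0 < 1 - r := by linarith
    positivity, ?_⟩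
  intro N
  have hmaps : ∀ z ∈ Icc 1 N, Nat.log 2 z ∈ Finset.range (Nat.log 2 N + 1) := by
    intro z hz
    rw [Finset.mem_range, Nat.lt_succ_iff]
    exact Nat.log_mono_right (Finset.mem_Icc.mp hz).2
  rw [← Finset.sum_fiberwise_of_maps_to hmaps]
  have hin : ∀ i ∈ Finset.range (Nat.log 2 N + 1),
      ∑ z ∈ Icc 1 N with Nat.log 2 z = i, (z : ℝ) ^ (-(1 / 2 : ℝ)) / (rad z : ℝ) ≤
        C * 2 ^ (1 / 4 : ℝ) * r ^ i := by
    intro i _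
    have h1 : ∀ z ∈ (Icc 1 N).filter (fun z => Nat.log 2 z = i),
        (z : ℝ) ^ (-(1 / 2 : ℝ)) / (rad z : ℝ) ≤
          ((2 : ℝ) ^ i) ^ (-(1 / 2 : ℝ)) * (1 / (rad z : ℝ)) := by
      intro z hz
      rw [Finset.mem_filter, Finset.mem_Icc] at hz
      have hz1 : (2 : ℝ) ^ i ≤ z := by
        have := Nat.pow_log_le_self 2 (show z ≠ 0 by omega)
        rw [hz.2] at this
        exact_mod_cast this
      rw [div_eq_mul_one_div]
      apply mul_le_mul_of_nonneg_right _ (by positivity)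
      exact Real.rpow_le_rpow_of_nonpos (by positivity) hz1 (by norm_num)
    have h2 : ∑ z ∈ (Icc 1 N).filter (fun z => Nat.log 2 z = i), (1 / (rad z : ℝ)) ≤
        ∑ z ∈ Icc 1 (2 ^ (i + 1)), (1 / (rad z : ℝ)) := by
      apply Finset.sum_le_sum_of_subset_of_nonneg
      · intro z hz
        rw [Finset.mem_filter, Finset.mem_Icc] at hz
        rw [Finset.mem_Icc]
        refine ⟨hz.1.1, ?_⟩
        have := Nat.lt_pow_succ_log_self (b := 2) (by norm_num) z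
        rw [hz.2] at this
        exact this.le
      · intro z _ _
        positivity
    have h3 := h (2 ^ (i + 1)) ∅ Nat.one_le_two_pow (by
      simp only [Finset.card_empty, Nat.cast_zero, one_mul]
      exact Real.log_nonneg (by exact_mod_cast Nat.one_le_two_pow))
    simp only [radG_empty] at h3
    calc ∑ z ∈ (Icc 1 N).filter (fun z => Nat.log 2 z = i),
          (z : ℝ) ^ (-(1 / 2 : ℝ)) / (rad z : ℝ)
        ≤ ∑ z ∈ (Icc 1 N).filter (fun z => Nat.log 2 z = i),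
            ((2 : ℝ) ^ i) ^ (-(1 / 2 : ℝ)) * (1 / (rad z : ℝ)) := Finset.sum_le_sum h1
      _ = ((2 : ℝ) ^ i) ^ (-(1 / 2 : ℝ)) *
            ∑ z ∈ (Icc 1 N).filter (fun z => Nat.log 2 z = i), (1 / (rad z : ℝ)) := by
          rw [Finset.mul_sum]
      _ ≤ ((2 : ℝ) ^ i) ^ (-(1 / 2 : ℝ)) * (C * ((2 ^ (i + 1) : ℕ) : ℝ) ^ (1 / 4 : ℝ)) :=
          mul_le_mul_of_nonneg_left (h2.trans h3) (by positivity)
      _ = C * 2 ^ (1 / 4 : ℝ) * r ^ i := by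
          push_cast
          rw [← Real.rpow_natCast, ← Real.rpow_natCast, ← Real.rpow_mul (by norm_num),
            ← Real.rpow_mul (by norm_num), hr, ← Real.rpow_natCast, ← Real.rpow_mul (by norm_num)]
          push_cast
          have e1 : (2 : ℝ) ^ (((i : ℝ) + 1) * (1 / 4)) = 2 ^ (1 / 4 : ℝ) * 2 ^ ((i : ℝ) / 4) := by
            rw [← Real.rpow_add (by norm_num)]; congr 1; ring
          have e2 : (2 : ℝ) ^ ((i : ℝ) * -(1 / 2)) * 2 ^ ((i : ℝ) / 4) =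
              2 ^ (-(1 / 4 : ℝ) * i) := by
            rw [← Real.rpow_add (by norm_num)]; congr 1; ring
          rw [e1, ← e2]
          ring
  refine (Finset.sum_le_sum hin).trans ?_
  rw [← Finset.mul_sum]
  apply mul_le_mul_of_nonneg_left _ (by positivity)
  have hsum := (summable_geometric_of_lt_one hr0.le hr1).sum_le_tsum
    (Finset.range (Nat.log 2 N + 1)) (fun i _ => by positivity)
  rwa [tsum_geometric_of_lt_one hr0.le hr1] at hsum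

theorem div_rad_cast (k : ℕ) : (k : ℝ) / (rad k : ℝ) = ((k / rad k : ℕ) : ℝ) := by
  rw [Nat.cast_div (rad_dvd' k) (by exact_mod_cast (rad_pos' k).ne')]

theorem one_le_div_rad {k : ℕ} (hk : k ≠ 0) : 1 ≤ k / rad k :=
  (Nat.one_le_div_iff (rad_pos' k)).mpr (Nat.le_of_dvd (Nat.pos_of_ne_zero hk) (rad_dvd' k))

/-- `z rad z ∣ k` if `k / rad k = z` -/
theorem mul_rad_dvd {k z : ℕ} (hk : k ≠ 0) (h : k / rad k = z) : z * rad z ∣ k := by
  have h1 : k = z * rad k := by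
    rw [← h]; exact (Nat.div_mul_cancel (rad_dvd' k)).symm
  have h2 : rad z ∣ rad k := rad_dvd_rad ⟨rad k, h1⟩ hk
  conv_rhs => rw [h1]
  exact Nat.mul_dvd_mul_left z h2

theorem powC_explicit : PowC (1 / 100) (1 / 1000) := by
  classical
  obtain ⟨C1, hC1, hpow⟩ := Pool.Agent.Helper18.KP.pow_half (1 / 2000) (by norm_num)
  obtain ⟨C2, hC2, hrad⟩ := sum_half_rad
  refine ⟨2 * C1 + (C2 + 1), ?_⟩
  intro x y B hxN hyl hyx hB
  have hx : (1 : ℝ) ≤ x := by exact_mod_cast hxN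
  have hx0 : (0 : ℝ) < x := by linarith
  have hy0 : (0 : ℝ) < y := lt_of_lt_of_le (by positivity) hyl
  have hkpos : ∀ k ∈ Finset.Ico x (x + y), k ≠ 0 := by
    intro k hk
    have := (Finset.mem_Ico.mp hk).1
    omega
  set S := (Finset.Ico x (x + y)).filter (fun k : ℕ => B ≤ (k : ℝ) / (rad k : ℝ)) with hS
  rw [← Finset.sum_filter_add_sum_filter_not S
    (fun k : ℕ => (x : ℝ) ^ (1 / 5 : ℝ) ≤ (k : ℝ) / (rad k : ℝ))]
  have hBη : (0 : ℝ) < B ^ (-(1 / 1000 : ℝ)) := by positivity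
  -- large powerful part
  have hA : ∑ k ∈ S.filter (fun k : ℕ => (x : ℝ) ^ (1 / 5 : ℝ) ≤ (k : ℝ) / (rad k : ℝ)),
      ((k : ℝ) / (rad k : ℝ)) ^ (1 / 2 - 1 / 100 : ℝ) ≤ 2 * C1 * y * B ^ (-(1 / 1000 : ℝ)) := by
    have h1 : ∀ k ∈ S.filter (fun k : ℕ => (x : ℝ) ^ (1 / 5 : ℝ) ≤ (k : ℝ) / (rad k : ℝ)),
        ((k : ℝ) / (rad k : ℝ)) ^ (1 / 2 - 1 / 100 : ℝ) ≤
          B ^ (-(1 / 1000 : ℝ)) * (x : ℝ) ^ (-(9 / 5000 : ℝ)) *
            ((k : ℝ) / ∏ p ∈ k.primeFactors, (p : ℝ)) ^ (1 / 2 : ℝ) := by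
      intro k hk
      rw [Finset.mem_filter, hS, Finset.mem_filter] at hk
      obtain ⟨⟨_, hkB⟩, hkx⟩ := hk
      rw [← rad_cast]
      set z := (k : ℝ) / (rad k : ℝ) with hz
      have hz0 : 0 < z := by linarith
      have e1 : z ^ (1 / 2 - 1 / 100 : ℝ) =
          z ^ (-(1 / 1000 : ℝ)) * z ^ (-(9 / 1000 : ℝ)) * z ^ (1 / 2 : ℝ) := by
        rw [← Real.rpow_add hz0, ← Real.rpow_add hz0]; norm_num
      have e2 : z ^ (-(1 / 1000 : ℝ)) ≤ B ^ (-(1 / 1000 : ℝ)) :=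
        Real.rpow_le_rpow_of_nonpos (by linarith) hkB (by norm_num)
      have e3 : z ^ (-(9 / 1000 : ℝ)) ≤ (x : ℝ) ^ (-(9 / 5000 : ℝ)) := by
        have := Real.rpow_le_rpow_of_nonpos (z := -(9 / 1000 : ℝ))
          (show (0 : ℝ) < (x : ℝ) ^ (1 / 5 : ℝ) by positivity) hkx (by norm_num)
        rw [← Real.rpow_mul hx0.le] at this
        refine this.trans (le_of_eq ?_)
        norm_num
      rw [e1]
      gcongr
    refine (Finset.sum_le_sum h1).trans ?_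
    rw [← Finset.mul_sum]
    have h2 : ∑ k ∈ S.filter (fun k : ℕ => (x : ℝ) ^ (1 / 5 : ℝ) ≤ (k : ℝ) / (rad k : ℝ)),
        ((k : ℝ) / ∏ p ∈ k.primeFactors, (p : ℝ)) ^ (1 / 2 : ℝ) ≤
        ∑ k ∈ Finset.Icc ⌈(x : ℝ)⌉₊ ⌊(x : ℝ) + y⌋₊,
          ((k : ℝ) / ∏ p ∈ k.primeFactors, (p : ℝ)) ^ (1 / 2 : ℝ) := by
      apply Finset.sum_le_sum_of_subset_of_nonneg
      · intro k hk
        rw [Finset.mem_filter, hS, Finset.mem_filter, Finset.mem_Ico] at hk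
        rw [Finset.mem_Icc, Nat.ceil_natCast]
        refine ⟨hk.1.1.1, ?_⟩
        have : (x : ℝ) + y = ((x + y : ℕ) : ℝ) := by push_cast; ring
        rw [this, Nat.floor_natCast]
        omega
      · intro k _ _
        positivity
    have h3 := hpow x y hx hy0.le (by exact_mod_cast hyx)
    have h4 : (x : ℝ) ^ (1 / 2 : ℝ) ≤ y * (x : ℝ) ^ (1 / 1000 : ℝ) := by
      calc (x : ℝ) ^ (1 / 2 : ℝ) = (x : ℝ) ^ (1 / 2 - 1 / 1000 : ℝ) * (x : ℝ) ^ (1 / 1000 : ℝ) := by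
            rw [← Real.rpow_add hx0]; norm_num
        _ ≤ y * (x : ℝ) ^ (1 / 1000 : ℝ) := mul_le_mul_of_nonneg_right hyl (by positivity)
    have h5 : (1 : ℝ) ≤ (x : ℝ) ^ (1 / 1000 : ℝ) := Real.one_le_rpow hx (by norm_num)
    have h6 : (y : ℝ) + (x : ℝ) ^ (1 / 2 : ℝ) ≤ 2 * y * (x : ℝ) ^ (1 / 1000 : ℝ) := by nlinarith
    have h7 : (x : ℝ) ^ (-(9 / 5000 : ℝ)) * ((x : ℝ) ^ (1 / 1000 : ℝ) * (x : ℝ) ^ (1 / 2000 : ℝ)) ≤
        1 := by
      rw [← Real.rpow_add hx0, ← Real.rpow_add hx0]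
      exact Real.rpow_le_one_of_one_le_of_nonpos hx (by norm_num)
    calc B ^ (-(1 / 1000 : ℝ)) * (x : ℝ) ^ (-(9 / 5000 : ℝ)) *
          ∑ k ∈ S.filter (fun k : ℕ => (x : ℝ) ^ (1 / 5 : ℝ) ≤ (k : ℝ) / (rad k : ℝ)),
            ((k : ℝ) / ∏ p ∈ k.primeFactors, (p : ℝ)) ^ (1 / 2 : ℝ)
        ≤ B ^ (-(1 / 1000 : ℝ)) * (x : ℝ) ^ (-(9 / 5000 : ℝ)) *
            (C1 * (2 * y * (x : ℝ) ^ (1 / 1000 : ℝ)) * (x : ℝ) ^ (1 / 2000 : ℝ)) := by
          apply mul_le_mul_of_nonneg_left _ (by positivity)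
          refine h2.trans (h3.trans ?_)
          gcongr
      _ = 2 * C1 * y * B ^ (-(1 / 1000 : ℝ)) * ((x : ℝ) ^ (-(9 / 5000 : ℝ)) *
            ((x : ℝ) ^ (1 / 1000 : ℝ) * (x : ℝ) ^ (1 / 2000 : ℝ))) := by ring
      _ ≤ 2 * C1 * y * B ^ (-(1 / 1000 : ℝ)) * 1 :=
          mul_le_mul_of_nonneg_left h7 (by positivity)
      _ = 2 * C1 * y * B ^ (-(1 / 1000 : ℝ)) := mul_one _
  -- small powerful part
  have hBp : ∑ k ∈ S.filter (fun k : ℕ => ¬ (x : ℝ) ^ (1 / 5 : ℝ) ≤ (k : ℝ) / (rad k : ℝ)),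
      ((k : ℝ) / (rad k : ℝ)) ^ (1 / 2 - 1 / 100 : ℝ) ≤ (C2 + 1) * y * B ^ (-(1 / 1000 : ℝ)) := by
    set T := S.filter (fun k : ℕ => ¬ (x : ℝ) ^ (1 / 5 : ℝ) ≤ (k : ℝ) / (rad k : ℝ)) with hT
    set M := ⌊(x : ℝ) ^ (1 / 5 : ℝ)⌋₊ with hM
    have hMle : (M : ℝ) ≤ (x : ℝ) ^ (1 / 5 : ℝ) := Nat.floor_le (by positivity)
    have hTmem : ∀ k ∈ T, k ∈ Finset.Ico x (x + y) ∧ B ≤ ((k / rad k : ℕ) : ℝ) ∧
        ((k / rad k : ℕ) : ℝ) < (x : ℝ) ^ (1 / 5 : ℝ) := by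
      intro k hk
      rw [hT, Finset.mem_filter, hS, Finset.mem_filter, not_le, div_rad_cast] at hk
      exact ⟨hk.1.1, hk.1.2, hk.2⟩
    have h1 : ∀ k ∈ T, ((k : ℝ) / (rad k : ℝ)) ^ (1 / 2 - 1 / 100 : ℝ) ≤
        B ^ (-(1 / 1000 : ℝ)) * ((k / rad k : ℕ) : ℝ) ^ (1 / 2 : ℝ) := by
      intro k hk
      obtain ⟨hk1, hk2, _⟩ := hTmem k hk
      rw [div_rad_cast]
      set z : ℝ := ((k / rad k : ℕ) : ℝ) with hz
      have hz1 : 1 ≤ z := by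
        rw [hz]; exact_mod_cast one_le_div_rad (hkpos k hk1)
      have hz0 : 0 < z := by linarith
      have e1 : z ^ (1 / 2 - 1 / 100 : ℝ) =
          z ^ (-(1 / 1000 : ℝ)) * z ^ (-(9 / 1000 : ℝ)) * z ^ (1 / 2 : ℝ) := by
        rw [← Real.rpow_add hz0, ← Real.rpow_add hz0]; norm_num
      have e2 : z ^ (-(1 / 1000 : ℝ)) ≤ B ^ (-(1 / 1000 : ℝ)) :=
        Real.rpow_le_rpow_of_nonpos (by linarith) hk2 (by norm_num)
      have e3 : z ^ (-(9 / 1000 : ℝ)) ≤ 1 :=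
        Real.rpow_le_one_of_one_le_of_nonpos hz1 (by norm_num)
      rw [e1]
      calc z ^ (-(1 / 1000 : ℝ)) * z ^ (-(9 / 1000 : ℝ)) * z ^ (1 / 2 : ℝ)
          ≤ B ^ (-(1 / 1000 : ℝ)) * 1 * z ^ (1 / 2 : ℝ) := by gcongr
        _ = B ^ (-(1 / 1000 : ℝ)) * z ^ (1 / 2 : ℝ) := by rw [mul_one]
    refine (Finset.sum_le_sum h1).trans ?_
    rw [← Finset.mul_sum]
    have hmaps : ∀ k ∈ T, k / rad k ∈ Icc 1 M := by
      intro k hk
      obtain ⟨hk1, _, hk3⟩ := hTmem k hk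
      rw [Finset.mem_Icc]
      exact ⟨one_le_div_rad (hkpos k hk1), Nat.le_floor hk3.le⟩
    rw [← Finset.sum_fiberwise_of_maps_to hmaps]
    have h2 : ∀ z ∈ Icc 1 M, ∑ k ∈ T with k / rad k = z, ((k / rad k : ℕ) : ℝ) ^ (1 / 2 : ℝ) ≤
        y * ((z : ℝ) ^ (-(1 / 2 : ℝ)) / (rad z : ℝ)) + (x : ℝ) ^ (1 / 10 : ℝ) := by
      intro z hz
      rw [Finset.mem_Icc] at hz
      have hz0 : (0 : ℝ) < z := by exact_mod_cast hz.1
      have hr0 : (0 : ℝ) < (rad z : ℝ) := by exact_mod_cast rad_pos' z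
      have h3 : ∀ k ∈ T.filter (fun k => k / rad k = z), ((k / rad k : ℕ) : ℝ) ^ (1 / 2 : ℝ) =
          (z : ℝ) ^ (1 / 2 : ℝ) := by
        intro k hk
        rw [(Finset.mem_filter.mp hk).2]
      rw [Finset.sum_congr rfl h3, Finset.sum_const, nsmul_eq_mul]
      have h4 : ((T.filter (fun k => k / rad k = z)).card : ℝ) ≤ (y : ℝ) / ((z * rad z : ℕ) : ℝ) + 1 := by
        refine le_trans ?_ (Pool.Agent.Helper14.KSP.card_multiples_le x y (z * rad z)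
          (Nat.mul_pos hz.1 (rad_pos' z)))
        have : T.filter (fun k => k / rad k = z) ⊆
            (Finset.Ico x (x + y)).filter (fun k => z * rad z ∣ k) := by
          intro k hk
          rw [Finset.mem_filter] at hk
          obtain ⟨hk1, _, _⟩ := hTmem k hk.1
          rw [Finset.mem_filter]
          exact ⟨hk1, mul_rad_dvd (hkpos k hk1) hk.2⟩
        exact_mod_cast Finset.card_le_card this
      have h5 : (z : ℝ) ^ (1 / 2 : ℝ) ≤ (x : ℝ) ^ (1 / 10 : ℝ) := by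
        have h6 : (z : ℝ) ≤ (x : ℝ) ^ (1 / 5 : ℝ) := le_trans (by exact_mod_cast hz.2) hMle
        calc (z : ℝ) ^ (1 / 2 : ℝ) ≤ ((x : ℝ) ^ (1 / 5 : ℝ)) ^ (1 / 2 : ℝ) :=
              Real.rpow_le_rpow hz0.le h6 (by norm_num)
          _ = (x : ℝ) ^ (1 / 10 : ℝ) := by rw [← Real.rpow_mul hx0.le]; norm_num
      have h7 : (z : ℝ) ^ (1 / 2 : ℝ) = z * (z : ℝ) ^ (-(1 / 2 : ℝ)) := by
        nth_rewrite 2 [← Real.rpow_one (z : ℝ)]
        rw [← Real.rpow_add hz0]; norm_num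
      calc ((T.filter (fun k => k / rad k = z)).card : ℝ) * (z : ℝ) ^ (1 / 2 : ℝ)
          ≤ ((y : ℝ) / ((z * rad z : ℕ) : ℝ) + 1) * (z : ℝ) ^ (1 / 2 : ℝ) :=
            mul_le_mul_of_nonneg_right h4 (by positivity)
        _ = (y : ℝ) / ((z * rad z : ℕ) : ℝ) * (z : ℝ) ^ (1 / 2 : ℝ) + (z : ℝ) ^ (1 / 2 : ℝ) := by
            ring
        _ = y * ((z : ℝ) ^ (-(1 / 2 : ℝ)) / (rad z : ℝ)) + (z : ℝ) ^ (1 / 2 : ℝ) := by
            congr 1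
            rw [h7]
            push_cast
            field_simp
        _ ≤ y * ((z : ℝ) ^ (-(1 / 2 : ℝ)) / (rad z : ℝ)) + (x : ℝ) ^ (1 / 10 : ℝ) := by
            linarith
    have h3 : ∑ z ∈ Icc 1 M, (y * ((z : ℝ) ^ (-(1 / 2 : ℝ)) / (rad z : ℝ)) +
        (x : ℝ) ^ (1 / 10 : ℝ)) ≤ (C2 + 1) * y := by
      rw [Finset.sum_add_distrib, ← Finset.mul_sum, Finset.sum_const, Nat.card_Icc, nsmul_eq_mul,
        Nat.add_sub_cancel]
      have h4 := mul_le_mul_of_nonneg_left (hrad M) hy0.le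
      have h5 : (M : ℝ) * (x : ℝ) ^ (1 / 10 : ℝ) ≤ y := by
        calc (M : ℝ) * (x : ℝ) ^ (1 / 10 : ℝ) ≤ (x : ℝ) ^ (1 / 5 : ℝ) * (x : ℝ) ^ (1 / 10 : ℝ) :=
              mul_le_mul_of_nonneg_right hMle (by positivity)
          _ = (x : ℝ) ^ (3 / 10 : ℝ) := by rw [← Real.rpow_add hx0]; norm_num
          _ ≤ (x : ℝ) ^ (1 / 2 - 1 / 1000 : ℝ) :=
              Real.rpow_le_rpow_of_exponent_le hx (by norm_num)
          _ ≤ y := hyl
      linarith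
    calc B ^ (-(1 / 1000 : ℝ)) * ∑ z ∈ Icc 1 M, ∑ k ∈ T with k / rad k = z,
          ((k / rad k : ℕ) : ℝ) ^ (1 / 2 : ℝ)
        ≤ B ^ (-(1 / 1000 : ℝ)) * ((C2 + 1) * y) :=
          mul_le_mul_of_nonneg_left ((Finset.sum_le_sum h2).trans h3) hBη.le
      _ = (C2 + 1) * y * B ^ (-(1 / 1000 : ℝ)) := by ring
  calc _ ≤ 2 * C1 * y * B ^ (-(1 / 1000 : ℝ)) + (C2 + 1) * y * B ^ (-(1 / 1000 : ℝ)) :=
        add_le_add hA hBp
    _ = (2 * C1 + (C2 + 1)) * y * B ^ (-(1 / 1000 : ℝ)) := by ring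

/-- `PowC 0.01 η` for some `η > 0`. -/
theorem powC : ∃ η : ℝ, 0 < η ∧ η ≤ 1 / 100 ∧ PowC (1 / 100) η :=
  ⟨1 / 1000, by norm_num, by norm_num, powC_explicit⟩

end Pool.Agent.Helper48.KS
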