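import Mathlib

/-!
# Powerful parts with a given set of primes (project KS, MP_768c9c_nt)

Consumer forms of `PowHalf` (helper18's POW): sums of `(k / rad_g k) ^ (1/2 - δ)` over `k` in an
interval, where `rad_g k` is the product of the primes `p ∣ k`, `p ∉ g`.
-/

set_option autoImplicit false

namespace Pool.Agent.Helper48.KS

open Finset

/-- helper18's theorem POW -/
def PowHalf : Prop := ∀ ε : ℝ, 0 < ε → ∃ C : ℝ, 0 < C ∧ ∀ x y : ℝ, 1 ≤ x → 0 ≤ y → y ≤ x →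
  ∑ k ∈ Finset.Icc ⌈x⌉₊ ⌊x + y⌋₊, ((k : ℝ) / ∏ p ∈ k.primeFactors, (p : ℝ)) ^ (1 / 2 : ℝ) ≤
    C * (y + x ^ (1 / 2 : ℝ)) * x ^ ε

/-- product of the primes dividing `k` which are not in `g` -/
def radg (g : Finset ℕ) (k : ℕ) : ℕ := ∏ p ∈ k.primeFactors \ g, p

/-- the part of `k` composed of primes of `g` -/
def gpart (g : Finset ℕ) (k : ℕ) : ℕ := ∏ p ∈ k.primeFactors ∩ g, p ^ k.factorization p

/-- the part of `k` composed of primes outside `g` -/
def cpart (g : Finset ℕ) (k : ℕ) : ℕ := ∏ p ∈ k.primeFactors \ g, p ^ k.factorization p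

/-- number of `1 ≤ a ≤ z` composed of primes of `g` -/
def Ng (g : Finset ℕ) (z : ℕ) : ℕ := ((Finset.Icc 1 z).filter (fun a => a.primeFactors ⊆ g)).card

theorem gpart_mul_cpart (g : Finset ℕ) {k : ℕ} (hk : k ≠ 0) : gpart g k * cpart g k = k := by
  classical
  unfold gpart cpart
  conv_rhs => rw [← Nat.prod_factorization_pow_eq_self hk]
  rw [Nat.prod_factorization_eq_prod_primeFactors, ← Finset.prod_union]
  · rw [Finset.union_comm, Finset.sdiff_union_inter]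
  · exact Finset.disjoint_of_subset_left Finset.inter_subset_right Finset.disjoint_sdiff

theorem primeFactors_prod_pow {s : Finset ℕ} (hs : ∀ p ∈ s, p.Prime) (v : ℕ → ℕ)
    (hv : ∀ p ∈ s, v p ≠ 0) : (∏ p ∈ s, p ^ v p).primeFactors = s := by
  classical
  ext q
  rw [Nat.mem_primeFactors]
  constructor
  · rintro ⟨hq, hd, _⟩
    obtain ⟨p, hp, hqp⟩ := (Prime.dvd_finsetProd_iff hq.prime _).mp hd
    have := hq.dvd_of_dvd_pow hqp
    rw [(Nat.prime_dvd_prime_iff_eq hq (hs p hp)).mp this]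
    exact hp
  · intro hq
    refine ⟨hs q hq, ?_, ?_⟩
    · exact (dvd_pow_self q (hv q hq)).trans (Finset.dvd_prod_of_mem (fun p => p ^ v p) hq)
    · exact Finset.prod_ne_zero_iff.mpr fun p hp => pow_ne_zero _ (hs p hp).ne_zero

theorem primeFactors_cpart (g : Finset ℕ) (k : ℕ) :
    (cpart g k).primeFactors = k.primeFactors \ g := by
  classical
  refine primeFactors_prod_pow (fun p hp => Nat.prime_of_mem_primeFactors (Finset.sdiff_subset hp))
    _ fun p hp => ?_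
  have := Finset.sdiff_subset hp
  rw [← Nat.support_factorization] at this
  exact Finsupp.mem_support_iff.mp this

theorem primeFactors_gpart (g : Finset ℕ) (k : ℕ) :
    (gpart g k).primeFactors = k.primeFactors ∩ g := by
  classical
  refine primeFactors_prod_pow
    (fun p hp => Nat.prime_of_mem_primeFactors (Finset.inter_subset_left hp)) _ fun p hp => ?_
  have := Finset.inter_subset_left hp
  rw [← Nat.support_factorization] at this
  exact Finsupp.mem_support_iff.mp this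

theorem gpart_pos (g : Finset ℕ) (k : ℕ) : 0 < gpart g k :=
  Finset.prod_pos fun p hp =>
    pow_pos (Nat.prime_of_mem_primeFactors (Finset.inter_subset_left hp)).pos _

theorem cpart_pos (g : Finset ℕ) (k : ℕ) : 0 < cpart g k :=
  Finset.prod_pos fun p hp =>
    pow_pos (Nat.prime_of_mem_primeFactors (Finset.sdiff_subset hp)).pos _

theorem radg_pos (g : Finset ℕ) (k : ℕ) : 0 < radg g k :=
  Finset.prod_pos fun _ hp => (Nat.prime_of_mem_primeFactors (Finset.sdiff_subset hp)).pos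

theorem radg_dvd (g : Finset ℕ) {k : ℕ} : radg g k ∣ k := by
  classical
  refine (Finset.prod_dvd_prod_of_subset _ _ _ Finset.sdiff_subset).trans ?_
  exact Nat.prod_primeFactors_dvd k

theorem radg_mono (g : Finset ℕ) {h k : ℕ} (hd : h ∣ k) (hk : k ≠ 0) : radg g h ∣ radg g k :=
  Finset.prod_dvd_prod_of_subset _ _ _
    (Finset.sdiff_subset_sdiff (Nat.primeFactors_mono hd hk) le_rfl)

theorem radg_eq (g : Finset ℕ) (k : ℕ) : radg g k = ∏ p ∈ (cpart g k).primeFactors, p := by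
  rw [primeFactors_cpart]; rfl

theorem radg_eq' (g : Finset ℕ) (k : ℕ) :
    (radg g k : ℝ) = ∏ p ∈ (cpart g k).primeFactors, (p : ℝ) := by
  rw [radg_eq]; push_cast; rfl

theorem ratio_eq (g : Finset ℕ) {k : ℕ} (hk : k ≠ 0) :
    (k : ℝ) / radg g k =
      gpart g k * ((cpart g k : ℝ) / ∏ p ∈ (cpart g k).primeFactors, (p : ℝ)) := by
  have h := gpart_mul_cpart g hk
  have h1 : (k : ℝ) = gpart g k * cpart g k := by exact_mod_cast h.symm
  rw [← radg_eq', h1, mul_div_assoc]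

theorem one_le_ratio (g : Finset ℕ) {k : ℕ} (hk : k ≠ 0) : 1 ≤ (k : ℝ) / radg g k := by
  rw [one_le_div (by exact_mod_cast radg_pos g k)]
  exact_mod_cast Nat.le_of_dvd (Nat.pos_of_ne_zero hk) (radg_dvd g)

/-- (G3) crude form: all `k` in the interval. -/
theorem powGiven_crude (H : PowHalf) (ε : ℝ) (hε : 0 < ε) : ∃ C : ℝ, 0 < C ∧
    ∀ (x y : ℝ) (g : Finset ℕ), 1 ≤ x → 0 ≤ y → y ≤ x →
      ∑ k ∈ Finset.Icc ⌈x⌉₊ ⌊x + y⌋₊, ((k : ℝ) / radg g k) ^ (1 / 2 : ℝ) ≤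
        C * (y + x ^ (1 / 2 : ℝ)) * x ^ ε * (Ng g ⌊x + y⌋₊ : ℝ) := by
  classical
  obtain ⟨C, hC, h⟩ := H ε hε
  refine ⟨C + 2, by linarith, ?_⟩
  intro x y g hx hy hyx
  have hx0 : 0 < x := by linarith
  set S := Finset.Icc ⌈x⌉₊ ⌊x + y⌋₊ with hS
  set A := (Finset.Icc 1 ⌊x + y⌋₊).filter (fun a => a.primeFactors ⊆ g) with hA
  have hSpos : ∀ k ∈ S, k ≠ 0 := by
    intro k hk
    have h1 := (Finset.mem_Icc.mp hk).1
    have h2 : 0 < ⌈x⌉₊ := Nat.ceil_pos.mpr hx0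
    omega
  have hSle : ∀ k ∈ S, (k : ℝ) ≤ x + y := by
    intro k hk
    exact (Nat.le_floor_iff (by linarith)).mp (Finset.mem_Icc.mp hk).2
  have hSge : ∀ k ∈ S, x ≤ (k : ℝ) := by
    intro k hk
    exact Nat.ceil_le.mp (Finset.mem_Icc.mp hk).1
  have hmaps : ∀ k ∈ S, gpart g k ∈ A := by
    intro k hk
    rw [hA, Finset.mem_filter, Finset.mem_Icc]
    refine ⟨⟨gpart_pos g k, ?_⟩, ?_⟩
    · refine le_trans ?_ (Finset.mem_Icc.mp hk).2
      have h1 := gpart_mul_cpart g (hSpos k hk)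
      exact Nat.le_of_dvd (Nat.pos_of_ne_zero (hSpos k hk)) ⟨_, h1.symm⟩
    · rw [primeFactors_gpart]; exact Finset.inter_subset_right
  rw [← Finset.sum_fiberwise_of_maps_to hmaps]
  have hinner : ∀ a ∈ A, ∑ k ∈ S with gpart g k = a, ((k : ℝ) / radg g k) ^ (1 / 2 : ℝ) ≤
      (C + 2) * (y + x ^ (1 / 2 : ℝ)) * x ^ ε := by
    intro a ha
    rw [hA, Finset.mem_filter, Finset.mem_Icc] at ha
    obtain ⟨⟨ha1, ha2⟩, _⟩ := ha
    have ha0 : (0 : ℝ) < a := by exact_mod_cast ha1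
    have ha1' : (1 : ℝ) ≤ a := by exact_mod_cast ha1
    have haxy : (a : ℝ) ≤ x + y := (Nat.le_floor_iff (by linarith)).mp ha2
    -- the inner sum is a sum over `b`
    have hinj : ∑ k ∈ S with gpart g k = a, ((k : ℝ) / radg g k) ^ (1 / 2 : ℝ) ≤
        ∑ b ∈ Finset.Icc (max 1 ⌈x / a⌉₊) ⌊(x + y) / a⌋₊,
          (a : ℝ) ^ (1 / 2 : ℝ) * ((b : ℝ) / ∏ p ∈ b.primeFactors, (p : ℝ)) ^ (1 / 2 : ℝ) := by
      have e1 : ∀ k ∈ S.filter (fun k => gpart g k = a), ((k : ℝ) / radg g k) ^ (1 / 2 : ℝ) =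
          (a : ℝ) ^ (1 / 2 : ℝ) * ((cpart g k : ℝ) /
            ∏ p ∈ (cpart g k).primeFactors, (p : ℝ)) ^ (1 / 2 : ℝ) := by
        intro k hk
        rw [Finset.mem_filter] at hk
        rw [ratio_eq g (hSpos k hk.1), hk.2, Real.mul_rpow ha0.le]
        positivity
      rw [Finset.sum_congr rfl e1]
      have e2 : Set.InjOn (fun k => cpart g k) (S.filter (fun k => gpart g k = a) : Set ℕ) := by
        intro k hk l hl hkl
        rw [Finset.mem_coe, Finset.mem_filter] at hk hl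
        dsimp only at hkl
        rw [← gpart_mul_cpart g (hSpos k hk.1), ← gpart_mul_cpart g (hSpos l hl.1), hk.2, hl.2,
          hkl]
      rw [← Finset.sum_image (f := fun b : ℕ => (a : ℝ) ^ (1 / 2 : ℝ) *
        ((b : ℝ) / ∏ p ∈ b.primeFactors, (p : ℝ)) ^ (1 / 2 : ℝ)) e2]
      refine Finset.sum_le_sum_of_subset_of_nonneg ?_ fun b _ _ => by positivity
      intro b hb
      rw [Finset.mem_image] at hb
      obtain ⟨k, hk, rfl⟩ := hb
      rw [Finset.mem_filter] at hk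
      have h1 : (k : ℝ) = a * cpart g k := by
        rw [← hk.2]; exact_mod_cast (gpart_mul_cpart g (hSpos k hk.1)).symm
      rw [Finset.mem_Icc]
      refine ⟨max_le (cpart_pos g k) ?_, ?_⟩
      · rw [Nat.ceil_le, div_le_iff₀ ha0, mul_comm, ← h1]
        exact hSge k hk.1
      · rw [Nat.le_floor_iff (by positivity), le_div_iff₀ ha0, mul_comm, ← h1]
        exact hSle k hk.1
    refine hinj.trans ?_
    have hx1 : (1 : ℝ) ≤ x ^ ε := Real.one_le_rpow hx hε.le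
    have hxh : (0 : ℝ) ≤ x ^ (1 / 2 : ℝ) := by positivity
    have hah : (0 : ℝ) < (a : ℝ) ^ (1 / 2 : ℝ) := by positivity
    rcases le_or_gt 1 (x / a) with hxa | hxa
    · have h1 : max 1 ⌈x / a⌉₊ = ⌈x / a⌉₊ := by
        apply max_eq_right
        exact Nat.one_le_ceil_iff.mpr (by positivity)
      rw [h1, ← Finset.mul_sum]
      have h2 := h (x / a) (y / a) hxa (by positivity) (by gcongr)
      have h3 : x / a + y / a = (x + y) / a := by ring
      rw [h3] at h2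
      have h4 := mul_le_mul_of_nonneg_left h2 hah.le
      refine h4.trans ?_
      have h5 : (x / a) ^ ε ≤ x ^ ε := by
        apply Real.rpow_le_rpow (by positivity) _ hε.le
        exact div_le_self hx0.le ha1'
      have h6 : (a : ℝ) ^ (1 / 2 : ℝ) * (x / a) ^ (1 / 2 : ℝ) = x ^ (1 / 2 : ℝ) := by
        rw [← Real.mul_rpow ha0.le (by positivity)]
        congr 1
        field_simp
      have h7 : (a : ℝ) ^ (1 / 2 : ℝ) * (y / a) ≤ y := by
        have h8 : (a : ℝ) ^ (1 / 2 : ℝ) ≤ a := by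
          conv_rhs => rw [← Real.rpow_one (a : ℝ)]
          exact Real.rpow_le_rpow_of_exponent_le ha1' (by norm_num)
        calc (a : ℝ) ^ (1 / 2 : ℝ) * (y / a) ≤ a * (y / a) :=
              mul_le_mul_of_nonneg_right h8 (by positivity)
          _ = y := by field_simp
      calc (a : ℝ) ^ (1 / 2 : ℝ) * (C * (y / a + (x / a) ^ (1 / 2 : ℝ)) * (x / a) ^ ε)
          = C * ((a : ℝ) ^ (1 / 2 : ℝ) * (y / a) +
              (a : ℝ) ^ (1 / 2 : ℝ) * (x / a) ^ (1 / 2 : ℝ)) * (x / a) ^ ε := by ring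
        _ ≤ C * (y + x ^ (1 / 2 : ℝ)) * x ^ ε := by
            rw [h6]
            gcongr
        _ ≤ (C + 2) * (y + x ^ (1 / 2 : ℝ)) * x ^ ε := by
            gcongr
            linarith
    · have h1 : Finset.Icc (max 1 ⌈x / a⌉₊) ⌊(x + y) / a⌋₊ ⊆ {1} := by
        intro b hb
        rw [Finset.mem_Icc] at hb
        rw [Finset.mem_singleton]
        have h2 : 1 ≤ b := (le_max_left _ _).trans hb.1
        have h3 : ⌊(x + y) / a⌋₊ < 2 := by
          rw [Nat.floor_lt (by positivity)]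
          push_cast
          rw [div_lt_iff₀ ha0]
          rw [div_lt_one ha0] at hxa
          linarith
        omega
      refine (Finset.sum_le_sum_of_subset_of_nonneg h1 fun b _ _ => by positivity).trans ?_
      rw [Finset.sum_singleton]
      simp only [Nat.primeFactors_one, Finset.prod_empty, Nat.cast_one, div_one, Real.one_rpow,
        mul_one]
      have h2 : (a : ℝ) ^ (1 / 2 : ℝ) ≤ 2 * x ^ (1 / 2 : ℝ) := by
        calc (a : ℝ) ^ (1 / 2 : ℝ) ≤ (4 * x) ^ (1 / 2 : ℝ) := by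
              apply Real.rpow_le_rpow ha0.le _ (by norm_num)
              linarith
          _ = 2 * x ^ (1 / 2 : ℝ) := by
              rw [Real.mul_rpow (by norm_num) hx0.le]
              congr 1
              rw [show (4 : ℝ) = 2 ^ (2 : ℝ) by norm_num, ← Real.rpow_mul (by norm_num)]
              norm_num
      calc (a : ℝ) ^ (1 / 2 : ℝ) ≤ 2 * x ^ (1 / 2 : ℝ) := h2
        _ ≤ (C + 2) * (y + x ^ (1 / 2 : ℝ)) := by nlinarith [mul_nonneg hC.le hy, mul_nonneg hC.le hxh]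
        _ ≤ (C + 2) * (y + x ^ (1 / 2 : ℝ)) * x ^ ε :=
            le_mul_of_one_le_right (by positivity) hx1
  refine (Finset.sum_le_sum hinner).trans ?_
  rw [Finset.sum_const, nsmul_eq_mul, mul_comm]
  exact le_of_eq rfl

/-- (G1) the part with `k / rad_g k ≥ B`. -/
theorem powGiven (H : PowHalf) (δ ε : ℝ) (hδ : 0 ≤ δ) (hε : 0 < ε) :
    ∃ C : ℝ, 0 < C ∧ ∀ (x y B : ℝ) (g : Finset ℕ), 1 ≤ x → 0 ≤ y → y ≤ x → 1 ≤ B →
      ∑ k ∈ (Finset.Icc ⌈x⌉₊ ⌊x + y⌋₊).filter (fun k : ℕ => B ≤ (k : ℝ) / radg g k),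
        ((k : ℝ) / radg g k) ^ (1 / 2 - δ) ≤
        C * B ^ (-δ) * (y + x ^ (1 / 2 : ℝ)) * x ^ ε * (Ng g ⌊x + y⌋₊ : ℝ) := by
  classical
  obtain ⟨C, hC, h⟩ := powGiven_crude H ε hε
  refine ⟨C, hC, ?_⟩
  intro x y B g hx hy hyx hB
  have hx0 : 0 < x := by linarith
  have h1 : ∀ k ∈ (Finset.Icc ⌈x⌉₊ ⌊x + y⌋₊).filter (fun k : ℕ => B ≤ (k : ℝ) / radg g k),
      ((k : ℝ) / radg g k) ^ (1 / 2 - δ) ≤ B ^ (-δ) * ((k : ℝ) / radg g k) ^ (1 / 2 : ℝ) := by
    intro k hk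
    rw [Finset.mem_filter] at hk
    have hr : 0 < (k : ℝ) / radg g k := by linarith [hk.2]
    rw [show (1 / 2 - δ : ℝ) = -δ + 1 / 2 by ring, Real.rpow_add hr]
    apply mul_le_mul_of_nonneg_right _ (by positivity)
    exact Real.rpow_le_rpow_of_nonpos (by linarith) hk.2 (by linarith)
  refine (Finset.sum_le_sum h1).trans ?_
  rw [← Finset.mul_sum]
  have h2 : ∑ k ∈ (Finset.Icc ⌈x⌉₊ ⌊x + y⌋₊).filter (fun k : ℕ => B ≤ (k : ℝ) / radg g k),
      ((k : ℝ) / radg g k) ^ (1 / 2 : ℝ) ≤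
      ∑ k ∈ Finset.Icc ⌈x⌉₊ ⌊x + y⌋₊, ((k : ℝ) / radg g k) ^ (1 / 2 : ℝ) :=
    Finset.sum_le_sum_of_subset_of_nonneg (Finset.filter_subset _ _) fun k _ _ => by positivity
  have h3 := h x y g hx hy hyx
  calc B ^ (-δ) * ∑ k ∈ (Finset.Icc ⌈x⌉₊ ⌊x + y⌋₊).filter (fun k : ℕ => B ≤ (k : ℝ) / radg g k),
        ((k : ℝ) / radg g k) ^ (1 / 2 : ℝ)
      ≤ B ^ (-δ) * (C * (y + x ^ (1 / 2 : ℝ)) * x ^ ε * (Ng g ⌊x + y⌋₊ : ℝ)) :=
        mul_le_mul_of_nonneg_left (h2.trans h3) (by positivity)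
    _ = C * B ^ (-δ) * (y + x ^ (1 / 2 : ℝ)) * x ^ ε * (Ng g ⌊x + y⌋₊ : ℝ) := by ring

/-- (G4) with a divisor condition. -/
theorem powGiven_dvd (H : PowHalf) (ε : ℝ) (hε : 0 < ε) : ∃ C : ℝ, 0 < C ∧
    ∀ (x y : ℝ) (h : ℕ) (g : Finset ℕ), 1 ≤ h → (h : ℝ) ≤ x → 0 ≤ y → y ≤ x →
      ∑ k ∈ (Finset.Icc ⌈x⌉₊ ⌊x + y⌋₊).filter (fun k => h ∣ k),
        ((k : ℝ) / radg g k) ^ (1 / 2 : ℝ) ≤
        C * (y / (h : ℝ) ^ (1 / 2 : ℝ) + x ^ (1 / 2 : ℝ)) * x ^ ε * (Ng g ⌊x + y⌋₊ : ℝ) := by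
  classical
  obtain ⟨C, hC, hc⟩ := powGiven_crude H ε hε
  refine ⟨C, hC, ?_⟩
  intro x y h g hh hhx hy hyx
  have hh0 : (0 : ℝ) < h := by exact_mod_cast hh
  have hh1 : (1 : ℝ) ≤ h := by exact_mod_cast hh
  have hx0 : 0 < x := by linarith
  have hkpos : ∀ k ∈ Finset.Icc ⌈x⌉₊ ⌊x + y⌋₊, k ≠ 0 := by
    intro k hk
    have h1 := (Finset.mem_Icc.mp hk).1
    have h2 : 0 < ⌈x⌉₊ := Nat.ceil_pos.mpr hx0
    omega
  have e1 : ∀ k ∈ (Finset.Icc ⌈x⌉₊ ⌊x + y⌋₊).filter (fun k => h ∣ k),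
      ((k : ℝ) / radg g k) ^ (1 / 2 : ℝ) ≤
        (h : ℝ) ^ (1 / 2 : ℝ) * (((k / h : ℕ) : ℝ) / radg g (k / h)) ^ (1 / 2 : ℝ) := by
    intro k hk
    rw [Finset.mem_filter] at hk
    obtain ⟨l, rfl⟩ := hk.2
    have hk0 := hkpos _ hk.1
    have hl : h * l / h = l := Nat.mul_div_cancel_left _ hh
    rw [hl, ← Real.mul_rpow hh0.le (by positivity)]
    apply Real.rpow_le_rpow (by positivity) _ (by norm_num)
    push_cast
    rw [mul_div_assoc]
    apply mul_le_mul_of_nonneg_left _ hh0.le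
    apply div_le_div_of_nonneg_left (by positivity) (by exact_mod_cast radg_pos g l)
    exact_mod_cast Nat.le_of_dvd (radg_pos g _) (radg_mono g (dvd_mul_left l h) hk0)
  refine (Finset.sum_le_sum e1).trans ?_
  rw [← Finset.mul_sum]
  have e2 : ∑ k ∈ (Finset.Icc ⌈x⌉₊ ⌊x + y⌋₊).filter (fun k => h ∣ k),
      (((k / h : ℕ) : ℝ) / radg g (k / h)) ^ (1 / 2 : ℝ) ≤
      ∑ l ∈ Finset.Icc ⌈x / h⌉₊ ⌊x / h + y / h⌋₊, ((l : ℝ) / radg g l) ^ (1 / 2 : ℝ) := by
    have hinj : Set.InjOn (fun k => k / h)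
        ((Finset.Icc ⌈x⌉₊ ⌊x + y⌋₊).filter (fun k => h ∣ k) : Set ℕ) := by
      intro k hk l hl hkl
      rw [Finset.mem_coe, Finset.mem_filter] at hk hl
      dsimp only at hkl
      rw [← Nat.div_mul_cancel hk.2, ← Nat.div_mul_cancel hl.2, hkl]
    rw [← Finset.sum_image (f := fun l : ℕ => ((l : ℝ) / radg g l) ^ (1 / 2 : ℝ)) hinj]
    refine Finset.sum_le_sum_of_subset_of_nonneg ?_ fun b _ _ => by positivity
    intro b hb
    rw [Finset.mem_image] at hb
    obtain ⟨k, hk, rfl⟩ := hb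
    rw [Finset.mem_filter, Finset.mem_Icc] at hk
    obtain ⟨⟨hk1, hk2⟩, l, rfl⟩ := hk
    rw [Nat.mul_div_cancel_left _ hh, Finset.mem_Icc]
    rw [Nat.ceil_le] at hk1
    rw [Nat.le_floor_iff (by linarith)] at hk2
    push_cast at hk1 hk2
    constructor
    · rw [Nat.ceil_le, div_le_iff₀ hh0]
      linarith [mul_comm (h : ℝ) l]
    · rw [← add_div, Nat.le_floor_iff (by positivity), le_div_iff₀ hh0]
      linarith [mul_comm (h : ℝ) l]
  have e3 := hc (x / h) (y / h) g (by rw [one_le_div hh0]; exact hhx) (by positivity)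
    (by gcongr)
  have e4 : (Ng g ⌊x / h + y / h⌋₊ : ℝ) ≤ Ng g ⌊x + y⌋₊ := by
    have : Ng g ⌊x / h + y / h⌋₊ ≤ Ng g ⌊x + y⌋₊ := by
      apply Finset.card_le_card
      apply Finset.filter_subset_filter
      apply Finset.Icc_subset_Icc le_rfl
      apply Nat.floor_le_floor
      have : x / h ≤ x := div_le_self hx0.le hh1
      have : y / h ≤ y := div_le_self hy hh1
      linarith
    exact_mod_cast this
  have hxh : (0 : ℝ) ≤ x ^ (1 / 2 : ℝ) := by positivity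
  have e5 : (h : ℝ) ^ (1 / 2 : ℝ) * (y / h) = y / (h : ℝ) ^ (1 / 2 : ℝ) := by
    have : (h : ℝ) = (h : ℝ) ^ (1 / 2 : ℝ) * (h : ℝ) ^ (1 / 2 : ℝ) := by
      rw [← Real.rpow_add hh0]; norm_num
    have h0 : (h : ℝ) ^ (1 / 2 : ℝ) ≠ 0 := by positivity
    rw [eq_div_iff h0]
    calc (h : ℝ) ^ (1 / 2 : ℝ) * (y / h) * (h : ℝ) ^ (1 / 2 : ℝ)
        = ((h : ℝ) ^ (1 / 2 : ℝ) * (h : ℝ) ^ (1 / 2 : ℝ)) * (y / h) := by ring
      _ = h * (y / h) := by rw [← this]
      _ = y := by field_simp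
  have e6 : (h : ℝ) ^ (1 / 2 : ℝ) * (x / h) ^ (1 / 2 : ℝ) = x ^ (1 / 2 : ℝ) := by
    rw [← Real.mul_rpow hh0.le (by positivity)]
    congr 1
    field_simp
  calc (h : ℝ) ^ (1 / 2 : ℝ) * ∑ k ∈ (Finset.Icc ⌈x⌉₊ ⌊x + y⌋₊).filter (fun k => h ∣ k),
        (((k / h : ℕ) : ℝ) / radg g (k / h)) ^ (1 / 2 : ℝ)
      ≤ (h : ℝ) ^ (1 / 2 : ℝ) * (C * (y / h + (x / h) ^ (1 / 2 : ℝ)) * (x / h) ^ ε *
          (Ng g ⌊x / h + y / h⌋₊ : ℝ)) :=
        mul_le_mul_of_nonneg_left (e2.trans e3) (by positivity)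
    _ = C * ((h : ℝ) ^ (1 / 2 : ℝ) * (y / h) + (h : ℝ) ^ (1 / 2 : ℝ) * (x / h) ^ (1 / 2 : ℝ)) *
          (x / h) ^ ε * (Ng g ⌊x / h + y / h⌋₊ : ℝ) := by ring
    _ ≤ C * (y / (h : ℝ) ^ (1 / 2 : ℝ) + x ^ (1 / 2 : ℝ)) * x ^ ε * (Ng g ⌊x + y⌋₊ : ℝ) := by
        rw [e5, e6]
        have : (x / h) ^ ε ≤ x ^ ε :=
          Real.rpow_le_rpow (by positivity) (div_le_self hx0.le hh1) hε.le
        gcongr

/-! ### The number of integers composed of given primes -/

theorem Ng_empty (z : ℕ) : Ng ∅ z ≤ 1 := by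
  unfold Ng
  rw [Finset.card_le_one]
  have key : ∀ a ∈ (Finset.Icc 1 z).filter (fun a => a.primeFactors ⊆ (∅ : Finset ℕ)), a = 1 := by
    intro a ha
    rw [Finset.mem_filter, Finset.mem_Icc, Finset.subset_empty, Nat.primeFactors_eq_empty] at ha
    omega
  intro a ha b hb
  rw [key a ha, key b hb]

theorem Ng_zero (g : Finset ℕ) : Ng g 0 = 0 := by
  unfold Ng; simp

theorem Ng_insert (g : Finset ℕ) (p z : ℕ) (hp : p.Prime) :
    Ng (insert p g) z ≤ ∑ j ∈ Finset.range (Nat.log p z + 1), Ng g (z / p ^ j) := by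
  classical
  unfold Ng
  rw [← Finset.card_sigma]
  refine Finset.card_le_card_of_injOn
    (fun a => (⟨a.factorization p, a / p ^ a.factorization p⟩ : Σ _ : ℕ, ℕ)) ?_ ?_
  · intro a ha
    rw [Finset.mem_coe, Finset.mem_filter, Finset.mem_Icc] at ha
    obtain ⟨⟨ha1, haz⟩, hag⟩ := ha
    have ha0 : a ≠ 0 := by omega
    rw [Finset.mem_coe, Finset.mem_sigma]
    constructor
    · rw [Finset.mem_range, Nat.lt_succ_iff]
      have h1 : p ^ a.factorization p ≤ z := (Nat.ordProj_le p ha0).trans haz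
      exact Nat.le_log_of_pow_le hp.one_lt h1
    · dsimp only
      rw [Finset.mem_filter, Finset.mem_Icc]
      refine ⟨⟨Nat.div_pos (Nat.ordProj_le p ha0) (Nat.ordProj_pos a p),
        Nat.div_le_div_right haz⟩, ?_⟩
      intro q hq
      rw [Nat.mem_primeFactors] at hq
      have hqa : q ∣ a := hq.2.1.trans (Nat.ordCompl_dvd a p)
      have hmem : q ∈ insert p g := hag (Nat.mem_primeFactors.mpr ⟨hq.1, hqa, ha0⟩)
      rcases Finset.mem_insert.mp hmem with h | h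
      · exfalso
        subst h
        exact Nat.not_dvd_ordCompl hq.1 ha0 hq.2.1
      · exact h
  · intro a ha b hb hab
    simp only [Sigma.mk.injEq, heq_eq_eq] at hab
    obtain ⟨h1, h2⟩ := hab
    rw [← Nat.ordProj_mul_ordCompl_eq_self a p, ← Nat.ordProj_mul_ordCompl_eq_self b p, h2, h1]

/-- (G2) -/
theorem Ng_le (P0 : ℕ) (hP0 : 2 ≤ P0) (g : Finset ℕ) (hg : ∀ p ∈ g, p.Prime ∧ P0 ≤ p) :
    ∀ z : ℕ, Ng g z ≤ 2 ^ (g.card + Nat.log P0 z) := by
  classical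
  induction g using Finset.induction_on with
  | empty =>
    intro z
    exact (Ng_empty z).trans Nat.one_le_two_pow
  | insert p g hpg ih =>
    intro z
    have hp := hg p (Finset.mem_insert_self p g)
    have ih' := ih fun q hq => hg q (Finset.mem_insert_of_mem hq)
    refine (Ng_insert g p z hp.1).trans ?_
    have hlog : ∀ j ∈ Finset.range (Nat.log p z + 1), Ng g (z / p ^ j) ≤
        2 ^ (g.card + (Nat.log P0 z - j)) := by
      intro j _
      refine (ih' (z / p ^ j)).trans ?_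
      apply Nat.pow_le_pow_right (by norm_num)
      apply Nat.add_le_add_left
      calc Nat.log P0 (z / p ^ j) ≤ Nat.log P0 (z / P0 ^ j) := by
            apply Nat.log_mono_right
            apply Nat.div_le_div_left (Nat.pow_le_pow_left hp.2 j)
            exact pow_pos (by omega) j
        _ = Nat.log P0 z - j := Nat.log_div_base_pow P0 z j
    refine (Finset.sum_le_sum hlog).trans ?_
    have hle : Nat.log p z ≤ Nat.log P0 z := by
      apply Nat.log_anti_left (by omega) hp.2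
    calc ∑ j ∈ Finset.range (Nat.log p z + 1), 2 ^ (g.card + (Nat.log P0 z - j))
        ≤ ∑ j ∈ Finset.range (Nat.log P0 z + 1), 2 ^ (g.card + (Nat.log P0 z - j)) := by
          apply Finset.sum_le_sum_of_subset
          apply Finset.range_mono
          omega
      _ = 2 ^ g.card * ∑ j ∈ Finset.range (Nat.log P0 z + 1), 2 ^ (Nat.log P0 z - j) := by
          rw [Finset.mul_sum]
          refine Finset.sum_congr rfl fun j _ => ?_
          rw [pow_add]
      _ = 2 ^ g.card * ∑ j ∈ Finset.range (Nat.log P0 z + 1), 2 ^ j := by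
          congr 1
          rw [← Finset.sum_range_reflect]
          refine Finset.sum_congr rfl fun j hj => ?_
          rw [Finset.mem_range] at hj
          congr 1
          omega
      _ ≤ 2 ^ g.card * 2 ^ (Nat.log P0 z + 1) := by
          apply Nat.mul_le_mul_left
          have := Nat.geomSum_eq (m := 2) le_rfl (Nat.log P0 z + 1)
          rw [this]
          simp
      _ = 2 ^ ((insert p g).card + Nat.log P0 z) := by
          rw [Finset.card_insert_of_notMem hpg, ← pow_add]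
          congr 1
          omega

end Pool.Agent.Helper48.KS
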