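import Pool.Agent.Helper33.KS.Moment

/-!
# Moments of random sums in terms of all conditional expectations (unbounded degree)

`cond U = ∑_t w t ∏_{i ∈ S t \ U} p i` is the conditional expectation of the random sum given
`U ⊆ R`. If it is `≤ L` for all `U` with at most `D * k` elements then the `k`-th moment is
`≤ L ^ k`. If for every `A` the part of the sum over `t` with `A ⊆ S t` is `≤ M`, then
`cond U ≤ 2 ^ |U| * M`.
-/

set_option autoImplicit false

open MeasureTheory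

namespace Pool.Agent.Helper48.KS

open Pool.Agent.Helper33.KS

variable {Ω ι τ : Type*} [MeasurableSpace Ω]

theorem moment_cond_aux [DecidableEq ι] (μ : Measure Ω) [IsProbabilityMeasure μ] (R : Ω → Set ι)
    (hmeas : ∀ A : Finset ι, MeasurableSet {ω | (A : Set ι) ⊆ R ω}) (p : ι → ℝ)
    (hp : ∀ i, 0 ≤ p i)
    (hub : ∀ A : Finset ι, μ.real {ω | (A : Set ι) ⊆ R ω} ≤ ∏ i ∈ A, p i)
    (T : Finset τ) (w : τ → ℝ) (S : τ → Finset ι) (hw : ∀ t ∈ T, 0 ≤ w t) (D : ℕ)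
    (hS : ∀ t ∈ T, (S t).card ≤ D) (L : ℝ) (hL : 0 ≤ L) (k : ℕ) :
    ∀ U : Finset ι,
      (∀ V : Finset ι, V.card ≤ U.card + D * (k - 1) → ∑ t ∈ T, w t * ∏ i ∈ S t \ V, p i ≤ L) →
      ∫ ω, ind (R ω) U * YY T w S (R ω) ^ k ∂μ ≤ (∏ i ∈ U, p i) * L ^ k := by
  induction k with
  | zero =>
    intro U _
    simp only [pow_zero, mul_one]
    rw [ind_eq_indicator, integral_indicator (hmeas U), setIntegral_const]
    simpa using hub U
  | succ k ih =>
    intro U hU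
    have h1 : ∀ ω, ind (R ω) U * YY T w S (R ω) ^ (k + 1) =
        ∑ t ∈ T, w t * (ind (R ω) (U ∪ S t) * YY T w S (R ω) ^ k) := by
      intro ω
      rw [pow_succ', ← mul_assoc]
      have h2 : ind (R ω) U * YY T w S (R ω) = ∑ t ∈ T, w t * ind (R ω) (U ∪ S t) := by
        unfold YY
        rw [Finset.mul_sum]
        refine Finset.sum_congr rfl fun t _ => ?_
        rw [← ind_union]
        ring
      rw [h2, Finset.sum_mul]
      refine Finset.sum_congr rfl fun t _ => ?_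
      ring
    simp only [h1]
    rw [integral_finsetSum _ fun t _ =>
      (integrable_aux μ hmeas T w S hw (U ∪ S t) k).const_mul (w t)]
    simp only [integral_const_mul]
    have hPU : 0 ≤ ∏ i ∈ U, p i := Finset.prod_nonneg fun i _ => hp i
    have h3 : ∀ t ∈ T, w t * ∫ ω, ind (R ω) (U ∪ S t) * YY T w S (R ω) ^ k ∂μ ≤
        (∏ i ∈ U, p i) * L ^ k * (w t * ∏ i ∈ S t \ U, p i) := by
      intro t ht
      have h7 := Finset.card_union_le U (S t)
      have h8 := hS t ht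
      have h4 : ∫ ω, ind (R ω) (U ∪ S t) * YY T w S (R ω) ^ k ∂μ ≤
          (∏ i ∈ U ∪ S t, p i) * L ^ k := by
        rcases Nat.eq_zero_or_pos k with hk | hk
        · subst hk
          simp only [pow_zero, mul_one]
          rw [ind_eq_indicator, integral_indicator (hmeas _), setIntegral_const]
          simpa using hub (U ∪ S t)
        · refine ih (U ∪ S t) fun V hV => hU V (hV.trans ?_)
          obtain ⟨j, rfl⟩ : ∃ j, k = j + 1 := ⟨k - 1, by omega⟩
          simp only [Nat.add_sub_cancel] at *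
          rw [mul_add, mul_one]
          omega
      have h11 : ∏ i ∈ U ∪ S t, p i = (∏ i ∈ U, p i) * ∏ i ∈ S t \ U, p i := by
        rw [← Finset.union_sdiff_self_eq_union, Finset.prod_union Finset.disjoint_sdiff]
      calc w t * ∫ ω, ind (R ω) (U ∪ S t) * YY T w S (R ω) ^ k ∂μ
          ≤ w t * ((∏ i ∈ U ∪ S t, p i) * L ^ k) := mul_le_mul_of_nonneg_left h4 (hw t ht)
        _ = (∏ i ∈ U, p i) * L ^ k * (w t * ∏ i ∈ S t \ U, p i) := by rw [h11]; ring
    refine (Finset.sum_le_sum h3).trans ?_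
    rw [← Finset.mul_sum, pow_succ, mul_assoc]
    exact mul_le_mul_of_nonneg_left (mul_le_mul_of_nonneg_left (hU U (by omega))
      (pow_nonneg hL k)) hPU

/-- High moments: conditional expectations `≤ L` (given at most `D * (k-1)` elements) give
`k`-th moment `≤ L ^ k`. -/
theorem moment_cond [DecidableEq ι] (μ : Measure Ω) [IsProbabilityMeasure μ] (R : Ω → Set ι)
    (hmeas : ∀ A : Finset ι, MeasurableSet {ω | (A : Set ι) ⊆ R ω}) (p : ι → ℝ)
    (hp : ∀ i, 0 ≤ p i)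
    (hub : ∀ A : Finset ι, μ.real {ω | (A : Set ι) ⊆ R ω} ≤ ∏ i ∈ A, p i)
    (T : Finset τ) (w : τ → ℝ) (S : τ → Finset ι) (hw : ∀ t ∈ T, 0 ≤ w t) (D : ℕ)
    (hS : ∀ t ∈ T, (S t).card ≤ D) (L : ℝ) (hL : 0 ≤ L) (k : ℕ)
    (hV : ∀ V : Finset ι, V.card ≤ D * (k - 1) → ∑ t ∈ T, w t * ∏ i ∈ S t \ V, p i ≤ L) :
    ∫ ω, YY T w S (R ω) ^ k ∂μ ≤ L ^ k := by
  have h := moment_cond_aux μ R hmeas p hp hub T w S hw D hS L hL k ∅ (by simpa using hV)
  simpa [ind_empty] using h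

/-- Upper tail. -/
theorem tail_cond [DecidableEq ι] (μ : Measure Ω) [IsProbabilityMeasure μ] (R : Ω → Set ι)
    (hmeas : ∀ A : Finset ι, MeasurableSet {ω | (A : Set ι) ⊆ R ω}) (p : ι → ℝ)
    (hp : ∀ i, 0 ≤ p i)
    (hub : ∀ A : Finset ι, μ.real {ω | (A : Set ι) ⊆ R ω} ≤ ∏ i ∈ A, p i)
    (T : Finset τ) (w : τ → ℝ) (S : τ → Finset ι) (hw : ∀ t ∈ T, 0 ≤ w t) (D : ℕ)
    (hS : ∀ t ∈ T, (S t).card ≤ D) (L : ℝ) (hL : 0 ≤ L) (k : ℕ)
    (hV : ∀ V : Finset ι, V.card ≤ D * (k - 1) → ∑ t ∈ T, w t * ∏ i ∈ S t \ V, p i ≤ L)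
    (l : ℝ) (hl : 0 < l) :
    μ.real {ω | l ≤ YY T w S (R ω)} ≤ (L / l) ^ k := by
  have h := moment_cond μ R hmeas p hp hub T w S hw D hS L hL k hV
  have hint : Integrable (fun ω => YY T w S (R ω) ^ k) μ := by
    have := integrable_aux μ hmeas T w S hw ∅ k
    simpa [ind_empty] using this
  have h1 := mul_meas_ge_le_integral_of_nonneg (μ := μ) (f := fun ω => YY T w S (R ω) ^ k)
    (Filter.Eventually.of_forall fun ω => pow_nonneg (YY_nonneg hw S (R ω)) k) hint (l ^ k)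
  rw [div_pow, le_div_iff₀ (pow_pos hl k), mul_comm]
  refine le_trans ?_ (h1.trans h)
  apply mul_le_mul_of_nonneg_left _ (pow_pos hl k).le
  refine measureReal_mono ?_ (measure_ne_top _ _)
  intro ω hω
  exact pow_le_pow_left₀ hl.le hω k

/-- The conditional expectation given `U` is at most `2 ^ |U|` times the largest of the sums over
`{t : A ⊆ S t}`, `A ⊆ U`. -/
theorem cond_le [DecidableEq ι] (T : Finset τ) (w : τ → ℝ) (S : τ → Finset ι) (p : ι → ℝ)
    (hp : ∀ i, 0 ≤ p i) (hw : ∀ t ∈ T, 0 ≤ w t) (M : ℝ) (U : Finset ι)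
    (hM : ∀ A : Finset ι, A ⊆ U →
      ∑ t ∈ T.filter (fun t => A ⊆ S t), w t * ∏ i ∈ S t \ A, p i ≤ M) :
    ∑ t ∈ T, w t * ∏ i ∈ S t \ U, p i ≤ 2 ^ U.card * M := by
  classical
  have hterm : ∀ t ∈ T, ∀ A : Finset ι, 0 ≤ w t * ∏ i ∈ S t \ A, p i := fun t ht A =>
    mul_nonneg (hw t ht) (Finset.prod_nonneg fun i _ => hp i)
  have h1 : ∀ t ∈ T, w t * ∏ i ∈ S t \ U, p i ≤
      ∑ A ∈ U.powerset, if A ⊆ S t then w t * ∏ i ∈ S t \ A, p i else 0 := by
    intro t ht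
    have hmem : S t ∩ U ∈ U.powerset := Finset.mem_powerset.mpr Finset.inter_subset_right
    have h2 : (if S t ∩ U ⊆ S t then w t * ∏ i ∈ S t \ (S t ∩ U), p i else 0) ≤
        ∑ A ∈ U.powerset, if A ⊆ S t then w t * ∏ i ∈ S t \ A, p i else 0 := by
      refine Finset.single_le_sum
        (f := fun A => if A ⊆ S t then w t * ∏ i ∈ S t \ A, p i else 0) ?_ hmem
      intro A _
      show 0 ≤ if A ⊆ S t then w t * ∏ i ∈ S t \ A, p i else 0
      split_ifs
      · exact hterm t ht A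
      · exact le_rfl
    rwa [if_pos Finset.inter_subset_left, Finset.sdiff_inter_self_left] at h2
  calc ∑ t ∈ T, w t * ∏ i ∈ S t \ U, p i
      ≤ ∑ t ∈ T, ∑ A ∈ U.powerset, (if A ⊆ S t then w t * ∏ i ∈ S t \ A, p i else 0) :=
        Finset.sum_le_sum h1
    _ = ∑ A ∈ U.powerset, ∑ t ∈ T, (if A ⊆ S t then w t * ∏ i ∈ S t \ A, p i else 0) :=
        Finset.sum_comm
    _ ≤ ∑ _A ∈ U.powerset, M := by
        refine Finset.sum_le_sum fun A hA => ?_
        rw [← Finset.sum_filter]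
        exact hM A (Finset.mem_powerset.mp hA)
    _ = 2 ^ U.card * M := by
        rw [Finset.sum_const, Finset.card_powerset, nsmul_eq_mul]
        push_cast
        ring

/-- Upper tail, unbounded degree. -/
theorem tail_two [DecidableEq ι] (μ : Measure Ω) [IsProbabilityMeasure μ] (R : Ω → Set ι)
    (hmeas : ∀ A : Finset ι, MeasurableSet {ω | (A : Set ι) ⊆ R ω}) (p : ι → ℝ)
    (hp : ∀ i, 0 ≤ p i)
    (hub : ∀ A : Finset ι, μ.real {ω | (A : Set ι) ⊆ R ω} ≤ ∏ i ∈ A, p i)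
    (T : Finset τ) (w : τ → ℝ) (S : τ → Finset ι) (hw : ∀ t ∈ T, 0 ≤ w t) (D : ℕ)
    (hS : ∀ t ∈ T, (S t).card ≤ D) (M : ℝ) (hM0 : 0 ≤ M) (k : ℕ)
    (hM : ∀ A : Finset ι,
      ∑ t ∈ T.filter (fun t => A ⊆ S t), w t * ∏ i ∈ S t \ A, p i ≤ M)
    (l : ℝ) (hl : 0 < l) :
    μ.real {ω | l ≤ YY T w S (R ω)} ≤ (2 ^ (D * k) * M / l) ^ k := by
  have hL : ∀ V : Finset ι, V.card ≤ D * (k - 1) →
      ∑ t ∈ T, w t * ∏ i ∈ S t \ V, p i ≤ 2 ^ (D * k) * M := by
    intro V hV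
    refine (cond_le T w S p hp hw M V fun A _ => hM A).trans ?_
    apply mul_le_mul_of_nonneg_right _ hM0
    apply pow_le_pow_right₀ (by norm_num : (1 : ℝ) ≤ 2)
    exact hV.trans (Nat.mul_le_mul_left D (Nat.sub_le k 1))
  exact tail_cond μ R hmeas p hp hub T w S hw D hS _ (by positivity) k hL l hl

end Pool.Agent.Helper48.KS
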